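import Pool.Agent.Results.MP_7ede32_ag.EveryNumberField
import Pool.Agent.Results.MP_627a61_nt.CyclicCoversNumberFields
import Pool.Agent.V35.WAE

/-!
# Lang's conjecture over all number fields, near almost every direction of the base

`E_i : y² = x³ + a_i x` or `y² = x³ + b_i` (`i = 1, …, r`) are elliptic curves, `A = E_1 × … × E_r`.

Part 1. Let `𝒳 : w² = F(P; t)`, `P ∈ A`, be ONE double cover of `A × 𝔸ⁿ` over `ℚ` (of `A × ℙ^(n-1)` if `F` is homogeneous in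
`t`) whose restriction to `{P} × 𝔸ⁿ` is irreducible for every `P ∈ A(ℂ)`. For EVERY number field `K` and every real `β > 1`
there is `δ > 0` such that for Lebesgue-almost all `α ∈ (K ⊗ ℝ)ⁿ` and all large `k` NO `K`-rational point of `𝒳` lies over a
point `t ∈ (𝓞 K)ⁿ` at distance at most `exp (δ k / log k)` from `β ^ k α` (more than any power of `log (β ^ k)`), in the
coordinates given by an integral basis.

Part 2 is an explicit class in every dimension: `w² = t₀ t₁ ∑_j f_j(P) t₀^(2(k-j)) t₁^(2j)`, where `f_0, …, f_k` are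
arbitrary forms of the same even multidegree without common zero on `A(ℂ)`.

Part 3 is about the families of all cyclic covers `w ^ m = ∑_e C_e V ^ e` of `A` over a number field `K`: for almost all real
coefficient vectors `α` and all large `k` NONE of the covers whose vector of coefficients `C_e ∈ 𝓞 K` is at distance at most
`exp (δ k / log k)` from `β ^ k α` has a `K`-rational point.
-/

set_option autoImplicit false

open MeasureTheory

namespace Pool.Agent.Results.MP_7ede32_ag.AlmostEveryDirection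

open NumberField Pool.Agent.V35.WB EveryNumberField

/-- For all real `β > 1` there is `δ > 0` such that for almost all real vectors `α` and all large `k` no integral vector `c`
with `‖c - β ^ k • α‖ ≤ exp (δ k / log k)` has the property `P` (maximum norm). -/
def FreeNearAlmostAll {ι : Type} [Fintype ι] (P : (ι → ℤ) → Prop) : Prop :=
  ∀ β : ℝ, 1 < β → ∃ δ : ℝ, 0 < δ ∧ ∀ᵐ α : ι → ℝ, ∃ k₀ : ℕ, ∀ k : ℕ, k₀ ≤ k →
    ∀ c : ι → ℤ, ‖(fun s => (c s : ℝ)) - β ^ k • α‖ ≤ Real.exp (δ * (k / Real.log k)) → ¬ P c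

/-- the double cover `w² = F(P; t)` of `E_1 × … × E_r`, `t_k = ∑ c (k, j) ω_j`, has a `K`-rational point -/
def FibrePoint {r n N : ℕ} (K : Type) [Field K] [NumberField K] (ω : Module.Basis (Fin N) ℤ (𝓞 K)) (a b : Fin r → ℤ)
    (F : MvPolynomial ((Fin r × Fin 3) ⊕ Fin n) ℤ) (c : Fin n × Fin N → ℤ) : Prop :=
  ∃ (V : Fin r → Fin 3 → K) (w : K), (∀ i, OnCurve (a i) (b i) (V i)) ∧
    w ^ 2 = value F V (fun k => ((∑ j, c (k, j) • ω j : 𝓞 K) : K))

/-- the double cover `w² = t₀ t₁ ∑_j f_j(P) t₀^(2(k-j)) t₁^(2j)` of `E_1 × … × E_r`, `t_i = ∑ c (i, j) ω_j`, has a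
`K`-rational point -/
def ExplicitPoint {r k N : ℕ} (K : Type) [Field K] [NumberField K] (ω : Module.Basis (Fin N) ℤ (𝓞 K)) (a b : Fin r → ℤ)
    (f : Fin (k + 1) → MvPolynomial (Fin r × Fin 3) ℤ) (c : Fin 2 × Fin N → ℤ) : Prop :=
  ∃ (V : Fin r → Fin 3 → K) (w t₀ t₁ : K),
    (∀ i, OnCurve (a i) (b i) (V i)) ∧ t₀ = ((∑ j, c (0, j) • ω j : 𝓞 K) : K) ∧
    t₁ = ((∑ j, c (1, j) • ω j : 𝓞 K) : K) ∧
    w ^ 2 = t₀ * t₁ * ∑ j : Fin (k + 1), MvPolynomial.aeval (fun ij : Fin r × Fin 3 => V ij.1 ij.2) (f j) *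
        (t₀ ^ (2 * (k - (j : ℕ))) * t₁ ^ (2 * (j : ℕ)))

/-- the cyclic cover `w ^ m = ∑_e C_e V ^ e` of `E_1 × … × E_r`, `e` running through the finite set `S` of exponents,
`C_e = ∑ c (e, j) ω_j`, has a `K`-rational point -/
def CyclicPoint {r n : ℕ} (K : Type) [Field K] [NumberField K] (ω : Module.Basis (Fin n) ℤ (𝓞 K)) (a b : Fin r → 𝓞 K)
    (m : ℕ) (S : Finset (Fin r → Fin 3 → ℕ)) (c : S × Fin n → ℤ) : Prop :=
  ∃ (V : Fin r → Fin 3 → K) (w : K), (∀ i, Pool.Agent.H901R3.MS.OnK (a i : K) (b i : K) (V i)) ∧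
    w ^ m = ∑ e : S, ((∑ j, c (e, j) • ω j : 𝓞 K) : K) * ∏ i, ∏ j, V i j ^ e.1 i j

lemma free_of {ι : Type} [Fintype ι] {P : (ι → ℤ) → Prop} {M : ℕ} (hM : Fintype.card ι = M)
    (h : ∃ c : ℝ, 0 < c ∧ ∃ H₀ : ℕ, ∀ H : ℕ, H₀ ≤ H →
      ({t : ι → ℤ | (∀ i, |t i| ≤ (H : ℤ)) ∧ P t}.ncard : ℝ) ≤
        (2 * (H : ℝ) + 1) ^ M * Real.exp (-c * (Real.log H / Real.log (Real.log H)))) :
    FreeNearAlmostAll P := by
  subst hM
  intro β hβ
  obtain ⟨c, hc, H₀, h⟩ := h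
  exact Pool.Agent.V35.WAE.ae_windows_exp hc h β hβ

/-- **Theorem.** See the introduction of this file. -/
theorem result :
    -- Part 1: all double covers `w² = F(P; t)` which are irreducible over each `P ∈ A(ℂ)`, over every number field
    (∀ (r : ℕ) (a b : Fin r → ℤ), (∀ i, a i * b i = 0 ∧ (a i ≠ 0 ∨ b i ≠ 0)) →
      ∀ (n : ℕ), 1 ≤ n → ∀ (F : MvPolynomial ((Fin r × Fin 3) ⊕ Fin n) ℤ) (d : Fin r → ℕ),
      (∀ i, Even (d i)) → (∀ e ∈ F.support, ∀ i, ∑ j, e (Sum.inl (i, j)) = d i) →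
      (∀ V : Fin r → Fin 3 → ℂ, (∀ i, OnCurve (a i) (b i) (V i)) →
        ∀ g : MvPolynomial (Fin n) ℂ, specialize F V ≠ g ^ 2) →
      ∀ (K : Type) [Field K] [NumberField K] (N : ℕ) (ω : Module.Basis (Fin N) ℤ (𝓞 K)),
        FreeNearAlmostAll (FibrePoint K ω a b F)) ∧
    -- Part 2: an explicit class of double covers of `A × ℙ¹`
    (∀ (r : ℕ) (a b : Fin r → ℤ), (∀ i, a i * b i = 0 ∧ (a i ≠ 0 ∨ b i ≠ 0)) →
      ∀ (k : ℕ) (f : Fin (k + 1) → MvPolynomial (Fin r × Fin 3) ℤ) (d : Fin r → ℕ),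
      (∀ i, Even (d i)) → (∀ s, ∀ e ∈ (f s).support, ∀ i, ∑ j, e (i, j) = d i) →
      (∀ V : Fin r → Fin 3 → ℂ, (∀ i, OnCurve (a i) (b i) (V i)) →
        ∃ s, MvPolynomial.aeval (fun ij : Fin r × Fin 3 => V ij.1 ij.2) (f s) ≠ 0) →
      ∀ (K : Type) [Field K] [NumberField K] (N : ℕ) (ω : Module.Basis (Fin N) ℤ (𝓞 K)),
        FreeNearAlmostAll (ExplicitPoint K ω a b f)) ∧
    -- Part 3: families of cyclic covers of `A` over a number field
    (∀ (K : Type) [Field K] [NumberField K] (n : ℕ) (ω : Module.Basis (Fin n) ℤ (𝓞 K))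
      (r : ℕ) (a b : Fin r → 𝓞 K),
      (∀ i, (b i = 0 ∧ a i ≠ 0 ∧ ¬ ∃ x : K, x ^ 2 = -1) ∨ (a i = 0 ∧ b i ≠ 0 ∧ ¬ ∃ x : K, x ^ 2 = -3)) →
      ∀ l m : ℕ, l.Prime → l ∣ m → 1 ≤ m → (l = 2 ∨ ∃ ζ : K, IsPrimitiveRoot ζ l) →
      ∀ d : Fin r → ℕ, (∀ i, m ∣ d i) →
      ∀ S : Finset (Fin r → Fin 3 → ℕ), (∀ e ∈ S, ∀ i, ∑ j, e i j = d i) →
      (∀ σ : Fin r → Fin 3, (fun i j => if j = σ i then d i else 0) ∈ S) →
        FreeNearAlmostAll (CyclicPoint K ω a b m S)) := by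
  refine ⟨?_, ?_, ?_⟩
  · intro r a b hab n hn F d hd hF hns K _ _ N ω
    exact free_of (M := n * N) (by simp) ((EveryNumberField.result r a b hab).1 n hn F d hd hF hns K N ω)
  · intro r a b hab k f d hd hf hz K _ _ N ω
    exact free_of (M := 2 * N) (by simp) ((EveryNumberField.result r a b hab).2 k f d hd hf hz K N ω)
  · intro K _ _ n ω r a b hE l m hl hlm hm hζ d hd S hS hpure
    obtain ⟨c, hc, H₀, h⟩ := Pool.Agent.Results.MP_627a61_nt.CyclicCoversNumberFields.result K n ω r a b hE l m hl hlm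
      hm hζ d hd S hS hpure
    refine free_of (M := S.card * n) (by simp) ⟨c, hc, H₀, fun H hH => le_trans (le_of_eq ?_) (h H hH)⟩
    congr 1
    have hinj : Function.Injective (fun c : S → Fin n → ℤ => fun p : S × Fin n => c p.1 p.2) := by
      intro c c' hcc
      funext e j
      exact congrFun hcc (e, j)
    rw [← Set.ncard_image_of_injective _ hinj]
    congr 1
    ext c
    constructor
    · rintro ⟨hb, hp⟩
      exact ⟨fun e j => c (e, j), ⟨fun e j => hb (e, j), hp⟩, rfl⟩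
    · rintro ⟨c', ⟨hb, hp⟩, rfl⟩
      exact ⟨fun p => hb p.1 p.2, hp⟩

end Pool.Agent.Results.MP_7ede32_ag.AlmostEveryDirection
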