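import Pool.Agent.V1153.FB.Gen

/-!
# The strong conjecture of Lang in families: uniform bounds in the fibres of a rational map

`X` is the complement of the hypersurface `Q = 0` in the integral closed subvariety of projective
`n`-space over the complex numbers with the ideal `I`, and `g = (g_0 : ... : g_m)` is a rational map
from `X` to projective `m`-space (a family of varieties `X_b`).

Theorem: the following are equivalent.
1. `X` is not covered by curves of the punctured line (rational curves if `Q` is constant) which are
   contained in the fibres of `g`;
2. (`FibFree`) for every `N` the points of `X` through which no curve of the punctured line of degree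
   at most `N` of the fibre passes are dense in `X`;
3. (`FibUniform`) for every type `(s, r, e)` there are one proper closed subset `Z` of `X` and one
   number `B` such that in every fibre of `g` every family of points given by iterated recurrences of
   type `(s, r, e)`, over any group, has at most `B` points outside of `Z`;
4. (`FibPowers`) for every `e` there is one proper closed subset `Z` of `X` such that in every fibre of
   `g` and over every finitely generated ring every sequence of integral points of type `(1, 1, e)`,
   indexed by `ℤ`, has only finitely many points outside of `Z`.
They hold if the irreducible components of log general type of the fibres of `g` are dense in `X`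
(`FibGeneral`), and if there is a proper closed subset `Z` of `X` outside of which every fibre of
`g` has only finitely many integral points over each finitely generated ring (`FibLang`).
-/

set_option autoImplicit false

namespace Pool.Agent.Results.MP_7ede32_ag.FibreUniformity

open MvPolynomial Pool.Agent.V1153.FB

/-- **Uniformity in the fibres.** -/
theorem result (n m : ℕ) (I : Ideal (MvPolynomial (Fin (n + 1)) ℂ)) (hI : I.IsPrime)
    (Q : MvPolynomial (Fin (n + 1)) ℂ) (q : ℕ) (hQ : Q.IsHomogeneous q)
    (g : Fin (m + 1) → MvPolynomial (Fin (n + 1)) ℂ) (δ : ℕ) (hg : ∀ u, (g u).IsHomogeneous δ) :
    List.TFAE [¬ FibRuled I Q g, FibFree I Q g, FibUniform I Q g, FibPowers I Q g] ∧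
      (FibGeneral I Q q g ∨ FibLang I Q g → ¬ FibRuled I Q g) := by
  obtain ⟨h1, h2⟩ := fib_arith hI hQ hg
  refine ⟨?_, fun h => h.elim (fun h => h.not_ruled hI hQ hg) h2⟩
  tfae_have 1 ↔ 2 := (fibFree_iff hI hQ).symm
  tfae_have 1 ↔ 3 := h1.out 0 1
  tfae_have 1 ↔ 4 := h1.out 0 2
  tfae_finish

end Pool.Agent.Results.MP_7ede32_ag.FibreUniformity
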