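import Mathlib
import Pool.Agent.Y215.SK.FinC
import Pool.Agent.Y215.SP.Off
import Pool.Agent.V11322.NR.Conv

set_option autoImplicit false

/-!
# The strong Lang conjecture for all algebraic points near the sums of elements of a group of finite
# rank

Let `X` be an integral closed subvariety of projective `n`-space over a number field `k`, given by
forms of degree at most `d`. The following are equivalent:

* `X` is not uniruled (this holds if `X` is of general type, of positive dimension);
* for every `r` there is a proper closed subset `Z = X ∩ {G = 0}` of `X`, defined over `k` and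
  depending only on `X` and `r`, such that for every finitely generated group `Γ` of nonzero algebraic
  numbers there are constants `A` and `e` such that for ALL vectors `V_1, …, V_r` of algebraic
  numbers: the points of `X ∖ Z` over the algebraic closure, of ARBITRARY degree, of the form

    `x = u_1 s_1 V_1 + … + u_r s_r V_r`,

  where the `u_j` are algebraic numbers with a power in `Γ`, and `s_1, …, s_r` are algebraic numbers
  with `h(s_1 : … : s_r) < eps(d, r)`, are finite in number, at most `A (1 + h(V)) ^ e`;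
* for every `r` there is such a `G` for which, for all `V`, the points off `G = 0` of the form
  `x = V_0 + ζ V_1 + … + ζ ^ (r - 1) V_(r-1)`, `ζ` a root of unity, are finite in number.

Here `h` is the absolute logarithmic height and `eps(d, r) > 0` is explicit. No condition on the field
of definition of the points is needed, because of the condition on the multipliers. The proof of the
finiteness is in `Pool/Agent/Y215` (a subspace theorem with moving coefficients, applied to the
monomials of the equations, together with a Bogomolov type argument for the `s_j`).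
-/

namespace Pool.Agent.Results.MP_7ede32_ag.NearFiniteRank

open MvPolynomial Pool.Agent.Helper259.AbsHt Pool.Agent.H533R3.SL Pool.Agent.Y215.SK
open Pool.Agent.V11322.NR (zPts conv_tors height_tors zpt)

/-- the explicit bound for the heights of the multipliers `s` -/
noncomputable def eps (d r : ℕ) : ℝ := Pool.Agent.Y215.SP.epsn ((d + 1) ^ r) / d / 2

theorem eps_pos (d r : ℕ) (hd : 1 ≤ d) : 0 < eps d r :=
  half_pos (div_pos (Pool.Agent.Y215.SP.epsn_pos _ (Nat.one_le_pow _ _ (by omega)))
    (by exact_mod_cast hd))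

theorem zPts_sub {k : Type} [Field k] [Algebra k Qbar] {n N r : ℕ}
    (P : Fin N → MvPolynomial (Fin (n + 1)) k) (G : MvPolynomial (Fin (n + 1)) k)
    (V : Fin r → Fin (n + 1) → Qbar) (Γ : Subgroup Qbarˣ) (ε : ℝ) (hε : 0 < ε) :
    zPts P G V ⊆ mixPts P G Γ ε V := by
  rintro p ⟨ζ, ⟨m, hm, hζ⟩, hP, hG, h0, rfl⟩
  have e : Pool.Agent.Y215.SK.psum Finset.univ (fun _ : Fin r => (1 : Qbarˣ)) (fun j a => ζ ^ (j : ℕ) * V j a) =
      zpt V ζ := by
    funext a
    unfold Pool.Agent.Y215.SK.psum zpt
    simp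
  refine ⟨fun _ => 1, fun j => ζ ^ (j : ℕ), fun _ => ⟨1, one_pos, by simp [Γ.one_mem]⟩, ?_, ?_, ?_⟩
  · rw [height_tors (fun j : Fin r => ζ ^ (j : ℕ)) m hm fun j => by
      rw [← pow_mul, mul_comm, pow_mul, hζ, one_pow]]
    exact hε
  · rw [e]
    exact ⟨h0, hP, hG⟩
  · rw [e]
    exact ⟨h0, rfl⟩

theorem result (k : Type) [Field k] [NumberField k] (n N : ℕ)
    (P : Fin N → MvPolynomial (Fin (n + 1)) k) (d : ℕ) (hd : 1 ≤ d)
    (hP : ∀ i, ∃ e, e ≤ d ∧ (P i).IsHomogeneous e)
    (hprime : (Ideal.span (Set.range P)).IsPrime) :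
    (∀ r, 0 < eps d r) ∧
    List.TFAE [¬ Uniruled (Ideal.span (Set.range P)),
      ∀ r : ℕ, ∃ G : MvPolynomial (Fin (n + 1)) k, (∃ e, G.IsHomogeneous e) ∧
        G ∉ Ideal.span (Set.range P) ∧
        ∀ [Algebra k Qbar] (Γ : Subgroup Qbarˣ), Γ.FG → ∃ (A : ℝ) (e : ℕ),
          ∀ V : Fin r → Fin (n + 1) → Qbar, (mixPts P G Γ (eps d r) V).Finite ∧
            ((mixPts P G Γ (eps d r) V).ncard : ℝ) ≤ A * (1 + hV V) ^ e,
      ∀ r : ℕ, ∃ G : MvPolynomial (Fin (n + 1)) k, (∃ e, G.IsHomogeneous e) ∧
        G ∉ Ideal.span (Set.range P) ∧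
        ∀ [Algebra k Qbar] (V : Fin r → Fin (n + 1) → Qbar), (zPts P G V).Finite] := by
  refine ⟨fun r => eps_pos d r hd, ?_⟩
  tfae_have 1 → 2 := by
    intro hnu r
    obtain ⟨G, h1, h2, h3⟩ := exists_hyper (Set.range P) hprime hnu d hd
      (by rintro _ ⟨i, rfl⟩; exact hP i) r
    refine ⟨G, h1, h2, fun {_} Γ hΓ => ?_⟩
    exact mix_finite P d hd hP G h1 (fun L _ _ c l hz hc =>
      h3 L c l (by rintro _ ⟨i, rfl⟩; exact hz i) hc) Γ hΓ
  tfae_have 2 → 3 := by
    intro h r
    obtain ⟨G, h1, h2, h3⟩ := h r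
    refine ⟨G, h1, h2, fun {_} V => ?_⟩
    have hfg : (⊥ : Subgroup Qbarˣ).FG := Subgroup.FG.bot
    obtain ⟨A, e, hA⟩ := h3 ⊥ hfg
    exact (hA V).1.subset (zPts_sub P G V ⊥ (eps d r) (eps_pos d r hd))
  tfae_have 3 → 1 := by
    intro h hu
    obtain ⟨r, hr⟩ := conv_tors k P hu
    obtain ⟨G, h1, h2, h3⟩ := h r
    obtain ⟨alg, V, hV⟩ := hr G h1 h2
    exact hV (h3 V)
  tfae_finish

end Pool.Agent.Results.MP_7ede32_ag.NearFiniteRank
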