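import Mathlib
import Pool.Agent.Y215.SP.Off
import Pool.Agent.V11322.NR.Conv

set_option autoImplicit false

/-!
# A uniform bound for the points of varieties which are not uniruled that are combinations of given
# points with multipliers of small height

Let `X` be an integral closed subvariety of projective `n`-space over a field `k` of characteristic
zero, given by any number of forms of degree at most `d`. Suppose that `X` is not uniruled (for
instance of general type, of positive dimension). For every `r` there is a proper closed subset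
`Z = X ∩ {G = 0}` of `X`, defined over `k` and depending only on `X` and `r`, such that for ALL fields
`L ⊇ k` and ALL vectors `v_1, …, v_r` over `L`, the number of the points of `(X ∖ Z)(L)` of the form

  `x = t_1 v_1 + … + t_r v_r`,

where `t_1, …, t_r` are algebraic numbers of ARBITRARY degree with `h(t_1 : … : t_r) < eps(d, r)`, for
instance roots of unity, is at most `B(d, r)`, an explicit number depending only on `d` and `r`. So
the bound depends neither on the dimension of `X` and of the projective space, nor on the
coefficients of the equations of `X` and their number, nor on `L` and the vectors `v_j`.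

Conversely, for a number field `k`, if `X` is uniruled then for some `r` and every proper closed subset
`G = 0` there are vectors `V_j` over the algebraic numbers for which infinitely many points of the form
`V_0 + ζ V_1 + … + ζ ^ (r-1) V_(r-1)`, `ζ` a root of unity, lie on `X` and off `G = 0`. So the uniform
bound characterises the varieties which are not uniruled.
-/

namespace Pool.Agent.Results.MP_7ede32_ag.SmallMultipliers

open MvPolynomial Pool.Agent.Helper259.AbsHt Pool.Agent.H533R3.SL Pool.Agent.Y215.SP
open Pool.Agent.V11322.NR (zPts conv_tors height_tors zpt)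

/-- the bound for the heights of the multipliers -/
noncomputable def eps (d r : ℕ) : ℝ := epsn ((d + 1) ^ r) / d

/-- the bound for the number of points -/
noncomputable def B (d r : ℕ) : ℕ := 2 ^ r * M0 ((d + 1) ^ r) d r

theorem eps_pos (d r : ℕ) (hd : 1 ≤ d) : 0 < eps d r :=
  div_pos (epsn_pos _ (Nat.one_le_pow _ _ (by omega))) (by exact_mod_cast hd)

theorem zPts_sub {k : Type} [Field k] [Algebra k Qbar] {n N r : ℕ}
    (P : Fin N → MvPolynomial (Fin (n + 1)) k) (G : MvPolynomial (Fin (n + 1)) k)
    (V : Fin r → Fin (n + 1) → Qbar) (ε : ℝ) (hε : 0 < ε) :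
    zPts P G V ⊆ smallOff (RingHom.id Qbar) P G ε V := by
  rintro p ⟨ζ, ⟨m, hm, hζ⟩, hP, hG, h0, rfl⟩
  have e : pt (RingHom.id Qbar) V (fun j => ζ ^ (j : ℕ)) = zpt V ζ := by
    funext a
    simp [pt, zpt]
  refine ⟨fun j => ζ ^ (j : ℕ), ?_, ?_⟩
  · rw [height_tors (fun j : Fin r => ζ ^ (j : ℕ)) m hm fun j => by
      rw [← pow_mul, mul_comm, pow_mul, hζ, one_pow]]
    exact hε
  · rw [e]
    exact ⟨hP, hG, h0, rfl⟩

theorem result :
    -- the uniform bound
    (∀ (k : Type) [Field k] (n N : ℕ) (P : Fin N → MvPolynomial (Fin (n + 1)) k) (d : ℕ),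
      1 ≤ d → (∀ i, ∃ e, e ≤ d ∧ (P i).IsHomogeneous e) →
      (Ideal.span (Set.range P)).IsPrime → ¬ Uniruled (Ideal.span (Set.range P)) → ∀ r : ℕ,
      0 < eps d r ∧
      ∃ G : MvPolynomial (Fin (n + 1)) k, (∃ e, G.IsHomogeneous e) ∧
        G ∉ Ideal.span (Set.range P) ∧
        ∀ (L : Type) [Field L] [Algebra k L] (ι : Qbar →+* L) (v : Fin r → Fin (n + 1) → L),
          (smallOff ι P G (eps d r) v).encard ≤ B d r) ∧
    -- the converse
    (∀ (k : Type) [Field k] [NumberField k] (n N : ℕ) (P : Fin N → MvPolynomial (Fin (n + 1)) k),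
      Uniruled (Ideal.span (Set.range P)) → ∃ r : ℕ,
      ∀ G : MvPolynomial (Fin (n + 1)) k, (∃ e, G.IsHomogeneous e) →
        G ∉ Ideal.span (Set.range P) →
        ∃ (_ : Algebra k Qbar) (V : Fin r → Fin (n + 1) → Qbar), (zPts P G V).Infinite ∧
          ∀ ε : ℝ, 0 < ε → (smallOff (RingHom.id Qbar) P G ε V).Infinite) := by
  refine ⟨fun k _ n N P d hd hP hprime hnu r => ⟨eps_pos d r hd, ?_⟩,
    fun k _ _ n N P hu => ?_⟩
  · obtain ⟨G, h1, h2, h3⟩ := small_multipliers P d hd hP hprime hnu r
    exact ⟨G, h1, h2, fun L _ _ ι v => h3 L ι v⟩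
  · obtain ⟨r, hr⟩ := conv_tors k P hu
    refine ⟨r, fun G h1 h2 => ?_⟩
    obtain ⟨alg, V, hV⟩ := hr G h1 h2
    exact ⟨alg, V, hV, fun ε hε => hV.mono (zPts_sub P G V ε hε)⟩

end Pool.Agent.Results.MP_7ede32_ag.SmallMultipliers
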